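import Pool.Agent.H623R2.PS.TM
import Pool.Agent.H623R2.PS.Member

/-!
# REACHABLE SUBSET_k is PSPACE-complete for every fixed k ≥ 2
-/

namespace Pool.Agent.Results.MP_76b05e_lc.PSPACEComplete

open Pool.Agent.NPC Pool.Agent.H623R2.PS

/-- For every fixed `k ≥ 2`, the problem REACHABLE SUBSET_k is complete for `PSPACE` under
polynomial-time many-one reductions. It is in `P` if and only if every language in `PSPACE` is. -/
theorem result : ∀ k : ℕ, 2 ≤ k →
    Pool.Agent.H623R2.PS.PSPACEComplete (lang (ReachableSubset k)) ∧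
      (InP (lang (ReachableSubset k)) ↔ ∀ L : Set (List Bool), InPSPACE L → InP L) :=
  fun k hk => ⟨⟨member k, hard hk⟩, fun h L hL => InP.of_reduces (hard hk L hL) h,
    fun h => h _ (member k)⟩

end Pool.Agent.Results.MP_76b05e_lc.PSPACEComplete
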